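import Pool.Agent.H58.BL.Stm

/-!
# Gegenbauer kernels of all degrees (piece GEG of project BL of helper58)

Fischer product on polynomials, zonal harmonics, dimension of the harmonic polynomials.
-/

set_option autoImplicit false

open Finset Module MvPolynomial Pool.Agent.H58.BL

namespace Pool.Agent.H630.BL

variable {d : ℕ}

/-- the product of the factorials of a multi-index -/
noncomputable def fct (m : Fin d →₀ ℕ) : ℝ := ∏ i, ((m i).factorial : ℝ)

theorem fct_pos (m : Fin d →₀ ℕ) : 0 < fct m :=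
  Finset.prod_pos fun i _ => by exact_mod_cast Nat.factorial_pos _

theorem fct_add (m : Fin d →₀ ℕ) (i : Fin d) :
    fct (m + Finsupp.single i 1) = (m i + 1) * fct m := by
  unfold fct
  rw [← Finset.mul_prod_erase univ _ (mem_univ i),
    ← Finset.mul_prod_erase univ (fun j => ((m j).factorial : ℝ)) (mem_univ i), ← mul_assoc]
  congr 1
  · simp [Nat.factorial_succ]
  · refine prod_congr rfl fun j hj => ?_
    have h : j ≠ i := (mem_erase.1 hj).1
    simp [h.symm]

/-- the Fischer product -/
noncomputable def B : MvPolynomial (Fin d) ℝ →ₗ[ℝ] MvPolynomial (Fin d) ℝ →ₗ[ℝ] ℝ :=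
  (basisMonomials (Fin d) ℝ).constr ℝ (fun m => fct m • lcoeff ℝ m)

theorem B_mono (m : Fin d →₀ ℕ) (a : ℝ) (q : MvPolynomial (Fin d) ℝ) :
    B (monomial m a) q = a * fct m * coeff m q := by
  have h : (monomial m a : MvPolynomial (Fin d) ℝ) = a • basisMonomials (Fin d) ℝ m := by
    simp [smul_monomial]
  rw [h, map_smul, B, Basis.constr_basis]
  simp [mul_assoc]

theorem B_X (i : Fin d) (p q : MvPolynomial (Fin d) ℝ) : B (X i * p) q = B p (pderiv i q) := by
  induction p using MvPolynomial.induction_on' with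
  | add p p' hp hp' => simp [mul_add, hp, hp']
  | monomial m a =>
    rw [X, monomial_mul, B_mono, B_mono, coeff_pderiv, one_mul, add_comm, fct_add]
    ring

theorem B_symm (p q : MvPolynomial (Fin d) ℝ) : B p q = B q p := by
  induction p using MvPolynomial.induction_on' with
  | add p p' hp hp' => simp [hp, hp']
  | monomial m a =>
    induction q using MvPolynomial.induction_on' with
    | add q q' hq hq' => rw [map_add, hq, hq', map_add]; rfl
    | monomial n b =>
      rw [B_mono, B_mono, coeff_monomial, coeff_monomial]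
      by_cases h : n = m
      · subst h; simp; ring
      · rw [if_neg h, if_neg (Ne.symm h)]; simp

theorem B_eq (p q : MvPolynomial (Fin d) ℝ) :
    B p q = ∑ m ∈ p.support, coeff m p * fct m * coeff m q := by
  conv_lhs => rw [p.as_sum]
  rw [map_sum, LinearMap.sum_apply]
  exact sum_congr rfl fun m _ => B_mono _ _ _

theorem B_nonneg (p : MvPolynomial (Fin d) ℝ) : 0 ≤ B p p := by
  rw [B_eq]
  refine sum_nonneg fun m _ => ?_
  have := fct_pos m
  nlinarith [mul_nonneg this.le (sq_nonneg (coeff m p))]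

theorem B_pos (p : MvPolynomial (Fin d) ℝ) (hp : B p p = 0) : p = 0 := by
  by_contra h
  have hs : p.support.Nonempty := by
    rwa [Finset.nonempty_iff_ne_empty, Ne, MvPolynomial.support_eq_empty]
  have : 0 < B p p := by
    rw [B_eq]
    refine sum_pos (fun m hm => ?_) hs
    have h1 := fct_pos m
    have h2 : coeff m p ≠ 0 := mem_support_iff.1 hm
    have h3 : 0 < coeff m p ^ 2 := by positivity
    nlinarith [mul_pos h1 h3]
  linarith

/-- features from the Fischer product -/
theorem exists_feat (W : Submodule ℝ (MvPolynomial (Fin d) ℝ)) [FiniteDimensional ℝ W] :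
    ∃ b : Fin (finrank ℝ W) → MvPolynomial (Fin d) ℝ, ∀ p ∈ W, ∀ q ∈ W,
      B p q = ∑ i, B (b i) p * B (b i) q := by
  let core : InnerProductSpace.Core ℝ W :=
    { inner := fun p q => B (p : MvPolynomial (Fin d) ℝ) q
      conj_inner_symm := fun p q => by
        show (starRingEnd ℝ) (B (q : MvPolynomial (Fin d) ℝ) p) = B (p : MvPolynomial (Fin d) ℝ) q
        rw [B_symm]; rfl
      re_inner_nonneg := fun p => B_nonneg _
      definite := fun p hp => Subtype.ext (B_pos _ hp)
      add_left := fun p q r => by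
        show B ((p + q : W) : MvPolynomial (Fin d) ℝ) r = _
        rw [Submodule.coe_add, map_add]; rfl
      smul_left := fun p q r => by
        show B ((r • p : W) : MvPolynomial (Fin d) ℝ) q = _
        rw [Submodule.coe_smul, map_smul]; rfl }
  let _ : NormedAddCommGroup W := core.toNormedAddCommGroup
  let _ : InnerProductSpace ℝ W := InnerProductSpace.ofCore core.toCore
  let e := stdOrthonormalBasis ℝ W
  refine ⟨fun i => (e i : MvPolynomial (Fin d) ℝ), fun p hp q hq => ?_⟩
  have h := e.sum_inner_mul_inner (⟨p, hp⟩ : W) (⟨q, hq⟩ : W)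
  have h2 : inner ℝ (⟨p, hp⟩ : W) (⟨q, hq⟩ : W) = B p q := rfl
  rw [← h2, ← h]
  refine sum_congr rfl fun i _ => ?_
  rw [real_inner_comm]
  rfl

/-! ### Zonal polynomials -/

/-- the linear form of the vector `y` -/
noncomputable def lin (y : Fin d → ℝ) : MvPolynomial (Fin d) ℝ := ∑ i, y i • X i

/-- the sum of the squares of the variables -/
noncomputable def R : MvPolynomial (Fin d) ℝ := ∑ i, X i * X i

/-- the Laplacian -/
noncomputable def lap : MvPolynomial (Fin d) ℝ →ₗ[ℝ] MvPolynomial (Fin d) ℝ :=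
  ∑ i, (pderiv i).toLinearMap ∘ₗ (pderiv i).toLinearMap

/-- the derivative in the direction `y` -/
noncomputable def dy (y : Fin d → ℝ) : MvPolynomial (Fin d) ℝ →ₗ[ℝ] MvPolynomial (Fin d) ℝ :=
  ∑ i, y i • (pderiv i).toLinearMap

theorem lap_apply (p : MvPolynomial (Fin d) ℝ) : lap p = ∑ i, pderiv i (pderiv i p) := by
  simp [lap, LinearMap.sum_apply]

theorem dy_apply (y : Fin d → ℝ) (p : MvPolynomial (Fin d) ℝ) :
    dy y p = ∑ i, y i • pderiv i p := by
  simp [dy, LinearMap.sum_apply]

theorem dy_mul (y : Fin d → ℝ) (p q : MvPolynomial (Fin d) ℝ) :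
    dy y (p * q) = dy y p * q + p * dy y q := by
  simp only [dy_apply, pderiv_mul, smul_add, sum_add_distrib, sum_mul, mul_sum, smul_mul_assoc,
    mul_smul_comm]

theorem pderiv_lin (y : Fin d → ℝ) (i : Fin d) : pderiv i (lin y) = C (y i) := by
  simp only [lin, map_sum, Derivation.map_smul, pderiv_X, Pi.single_apply]
  simp [smul_eq_C_mul]

theorem pderiv_R (i : Fin d) : pderiv i (R : MvPolynomial (Fin d) ℝ) = 2 * X i := by
  simp only [R, map_sum, pderiv_mul, pderiv_X, Pi.single_apply]
  simp [sum_add_distrib]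
  ring

theorem dy_lin (y : Fin d → ℝ) : dy y (lin y) = C (dt y y) := by
  simp [dy_apply, pderiv_lin, dt, smul_eq_C_mul]

theorem dy_R (y : Fin d → ℝ) : dy y (R : MvPolynomial (Fin d) ℝ) = 2 * lin y := by
  simp [dy_apply, pderiv_R, lin, mul_sum]

theorem lap_lin_mul (y : Fin d → ℝ) (p : MvPolynomial (Fin d) ℝ) :
    lap (lin y * p) = lin y * lap p + (2 : ℝ) • dy y p := by
  rw [lap_apply, lap_apply, dy_apply, mul_sum, smul_sum, ← sum_add_distrib]
  refine sum_congr rfl fun i _ => ?_
  rw [pderiv_mul, map_add, pderiv_mul, pderiv_mul, pderiv_lin, pderiv_C]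
  simp only [smul_eq_C_mul, map_ofNat]
  ring

theorem lap_R_mul (k : ℕ) (p : MvPolynomial (Fin d) ℝ) (hp : p.IsHomogeneous k) :
    lap (R * p) = R * lap p + (2 * d + 4 * k : ℝ) • p := by
  have h1 : ∀ i : Fin d, pderiv i (pderiv i (R * p)) =
      R * pderiv i (pderiv i p) + ((2 : ℝ) • p + (4 : ℝ) • (X i * pderiv i p)) := by
    intro i
    rw [pderiv_mul, map_add, pderiv_mul, pderiv_mul, pderiv_R, pderiv_mul, pderiv_X_self]
    simp only [smul_eq_C_mul, map_ofNat]
    have h2 : pderiv i (2 : MvPolynomial (Fin d) ℝ) = 0 := by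
      have := pderiv_C (R := ℝ) (σ := Fin d) (a := (2 : ℝ)) (i := i)
      rwa [map_ofNat] at this
    rw [h2]
    ring
  rw [lap_apply, sum_congr rfl fun i _ => h1 i, sum_add_distrib, sum_add_distrib, ← mul_sum,
    ← lap_apply, ← smul_sum, ← smul_sum, hp.sum_X_mul_pderiv]
  simp only [sum_const, card_univ, Fintype.card_fin, ← Nat.cast_smul_eq_nsmul ℝ]
  module

/-- the zonal polynomials -/
noncomputable def Z (y : Fin d → ℝ) : ℕ → MvPolynomial (Fin d) ℝ
  | 0 => 1
  | 1 => lin y
  | k + 2 => (1 / ((k : ℝ) + d - 1)) •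
      ((2 * (k : ℝ) + d) • (lin y * Z y (k + 1)) - ((k : ℝ) + 1) • (R * Z y k))

theorem Z_two (y : Fin d → ℝ) (k : ℕ) : Z y (k + 2) = (1 / ((k : ℝ) + d - 1)) •
      ((2 * (k : ℝ) + d) • (lin y * Z y (k + 1)) - ((k : ℝ) + 1) • (R * Z y k)) := by
  rw [Z]

theorem rec' (hd : 2 ≤ d) (y : Fin d → ℝ) (k : ℕ) : ((k : ℝ) + d - 2) • Z y (k + 1) =
    (2 * (k : ℝ) + d - 2) • (lin y * Z y k) - (k : ℝ) • (R * Z y (k - 1)) := by
  rcases k with _ | k
  · simp [Z]
  · have h0 : ((k : ℝ) + d - 1) ≠ 0 := by
      have : (2 : ℝ) ≤ d := by exact_mod_cast hd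
      have : (0 : ℝ) ≤ k := k.cast_nonneg
      intro h; linarith
    rw [Z_two, smul_smul, Nat.add_sub_cancel]
    have h1 : (((k + 1 : ℕ) : ℝ) + d - 2) * (1 / ((k : ℝ) + d - 1)) = 1 := by
      push_cast; field_simp; ring
    rw [h1]
    push_cast
    module

theorem dy_Z (hd : 2 ≤ d) (y : Fin d → ℝ) (hy : dt y y = 1) (k : ℕ) :
    dy y (Z y k) = (k : ℝ) • Z y (k - 1) := by
  induction k using Nat.strong_induction_on with
  | _ k ih =>
    rcases k with _ | _ | k
    · have : dy y (1 : MvPolynomial (Fin d) ℝ) = 0 := by simp [dy_apply]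
      simp [Z, this]
    · simp [Z, dy_lin, hy]
    · have h0 : ((k : ℝ) + d - 1) ≠ 0 := by
        have : (2 : ℝ) ≤ d := by exact_mod_cast hd
        have : (0 : ℝ) ≤ k := k.cast_nonneg
        intro h; linarith
      have h1 := ih (k + 1) (by omega)
      have h2 := ih k (by omega)
      have h3 := rec' hd y k
      rw [Nat.add_sub_cancel] at h1
      rw [Z_two, map_smul, map_sub, map_smul, map_smul, dy_mul, dy_mul, h1, h2, dy_lin, dy_R, hy]
      have h4 : k + 1 + 1 - 1 = k + 1 := rfl
      rw [h4, one_div, inv_smul_eq_iff₀ h0]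
      push_cast at h1 ⊢
      simp only [C_1, one_mul, mul_smul_comm]
      have h5 : (2 : MvPolynomial (Fin d) ℝ) * lin y * Z y k = (2 : ℝ) • (lin y * Z y k) := by
        rw [smul_eq_C_mul, map_ofNat]; ring
      rw [h5]
      linear_combination (norm := module) (-((k : ℝ) + 1)) • h3

theorem Z_hom (y : Fin d → ℝ) (k : ℕ) : (Z y k).IsHomogeneous k := by
  have hl : (lin y).IsHomogeneous 1 := by
    unfold lin
    refine IsHomogeneous.sum _ _ _ fun i _ => ?_
    rw [smul_eq_C_mul]
    simpa using (isHomogeneous_C (Fin d) (y i)).mul (isHomogeneous_X ℝ i)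
  have hR : (R : MvPolynomial (Fin d) ℝ).IsHomogeneous 2 := by
    unfold R
    exact IsHomogeneous.sum _ _ _ fun i _ => (isHomogeneous_X ℝ i).mul (isHomogeneous_X ℝ i)
  induction k using Nat.strong_induction_on with
  | _ k ih =>
    rcases k with _ | _ | k
    · exact isHomogeneous_one _ _
    · exact hl
    · have h1 := ih (k + 1) (by omega)
      have h2 := ih k (by omega)
      rw [Z_two, ← mem_homogeneousSubmodule]
      refine Submodule.smul_mem _ _ (Submodule.sub_mem _ (Submodule.smul_mem _ _ ?_)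
        (Submodule.smul_mem _ _ ?_))
      · rw [mem_homogeneousSubmodule]
        have := hl.mul h1
        rwa [show 1 + (k + 1) = k + 2 by ring] at this
      · rw [mem_homogeneousSubmodule]
        have := hR.mul h2
        rwa [show 2 + k = k + 2 by ring] at this

theorem lap_Z (hd : 2 ≤ d) (y : Fin d → ℝ) (hy : dt y y = 1) (k : ℕ) : lap (Z y k) = 0 := by
  induction k using Nat.strong_induction_on with
  | _ k ih =>
    rcases k with _ | _ | k
    · simp [Z, lap_apply]
    · simp [Z, lap_apply, pderiv_lin]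
    · have h1 := ih (k + 1) (by omega)
      have h2 := ih k (by omega)
      rw [Z_two, map_smul, map_sub, map_smul, map_smul, lap_lin_mul, lap_R_mul k _ (Z_hom y k),
        h1, h2, dy_Z hd y hy, Nat.add_sub_cancel]
      push_cast
      simp only [mul_zero, zero_add]
      module

theorem eval_Z (v y : Fin d → ℝ) (hv : dt v v = 1) (k : ℕ) :
    eval v (Z y k) = geg d k (dt y v) := by
  have hl : eval v (lin y) = dt y v := by simp [lin, dt, smul_eval]
  have hR : eval v (R : MvPolynomial (Fin d) ℝ) = 1 := by simpa [R, dt] using hv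
  induction k using Nat.strong_induction_on with
  | _ k ih =>
    rcases k with _ | _ | k
    · simp [Z, geg]
    · simp [Z, geg, hl]
    · have h1 := ih (k + 1) (by omega)
      have h2 := ih k (by omega)
      rw [Z_two, smul_eval, map_sub, smul_eval, smul_eval, map_mul, map_mul, h1, h2, hl, hR, geg]
      ring

theorem Z_lead (hd : 2 ≤ d) (k : ℕ) : ∃ c : ℝ, 0 < c ∧ ∀ y : Fin d → ℝ,
    ∃ W : MvPolynomial (Fin d) ℝ, Z y k = c • lin y ^ k + R * W := by
  induction k using Nat.strong_induction_on with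
  | _ k ih =>
    rcases k with _ | _ | k
    · exact ⟨1, one_pos, fun y => ⟨0, by simp [Z]⟩⟩
    · exact ⟨1, one_pos, fun y => ⟨0, by simp [Z]⟩⟩
    · obtain ⟨c, hc, h⟩ := ih (k + 1) (by omega)
      have h0 : 0 < ((k : ℝ) + d - 1) := by
        have : (2 : ℝ) ≤ d := by exact_mod_cast hd
        have : (0 : ℝ) ≤ k := k.cast_nonneg
        linarith
      have h0' : 0 < (2 * (k : ℝ) + d) := by
        have : (2 : ℝ) ≤ d := by exact_mod_cast hd
        have : (0 : ℝ) ≤ k := k.cast_nonneg
        linarith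
      refine ⟨(1 / ((k : ℝ) + d - 1)) * ((2 * (k : ℝ) + d) * c), by positivity, fun y => ?_⟩
      obtain ⟨W, hW⟩ := h y
      refine ⟨(1 / ((k : ℝ) + d - 1)) • ((2 * (k : ℝ) + d) • (lin y * W) -
        ((k : ℝ) + 1) • Z y k), ?_⟩
      rw [Z_two, hW]
      simp only [smul_eq_C_mul, map_mul, map_add]
      ring

theorem B_lin (y : Fin d → ℝ) (p q : MvPolynomial (Fin d) ℝ) :
    B (lin y * p) q = B p (dy y q) := by
  rw [lin, sum_mul, map_sum, LinearMap.sum_apply, dy_apply, map_sum]
  refine sum_congr rfl fun i _ => ?_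
  rw [smul_mul_assoc, map_smul, LinearMap.smul_apply, B_X, map_smul]

theorem B_R (p q : MvPolynomial (Fin d) ℝ) : B (R * p) q = B p (lap q) := by
  rw [R, sum_mul, map_sum, LinearMap.sum_apply, lap_apply, map_sum]
  refine sum_congr rfl fun i _ => ?_
  rw [mul_assoc, B_X, B_X]

theorem B_pow (y : Fin d → ℝ) (k : ℕ) (p : MvPolynomial (Fin d) ℝ) (hp : p.IsHomogeneous k) :
    B (lin y ^ k) p = k.factorial * eval y p := by
  induction k generalizing p with
  | zero =>
    have h1 : (1 : MvPolynomial (Fin d) ℝ) = monomial 0 1 := rfl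
    rw [← totalDegree_zero_iff_isHomogeneous, totalDegree_eq_zero_iff_eq_C] at hp
    rw [pow_zero, h1, B_mono, hp]
    simp [fct]
  | succ k ih =>
    have h1 : (dy y p).IsHomogeneous k := by
      rw [dy_apply]
      refine IsHomogeneous.sum _ _ _ fun i _ => ?_
      rw [← mem_homogeneousSubmodule]
      exact Submodule.smul_mem _ _ (by rw [mem_homogeneousSubmodule]; exact hp.pderiv)
    have h2 : eval y (dy y p) = (k + 1) * eval y p := by
      have := congrArg (eval y) hp.sum_X_mul_pderiv
      rw [dy_apply, map_sum]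
      rw [map_sum] at this
      simp only [smul_eval]
      simp only [map_mul, eval_X, nsmul_eq_mul, map_natCast] at this
      rw [this]; push_cast; ring
    rw [pow_succ', B_lin, ih _ h1, h2, Nat.factorial_succ]
    push_cast; ring

theorem B_Z (hd : 2 ≤ d) (k : ℕ) : ∃ c : ℝ, 0 < c ∧ ∀ v w : Fin d → ℝ, dt v v = 1 →
    dt w w = 1 → B (Z v k) (Z w k) = c * geg d k (dt v w) := by
  obtain ⟨c, hc, h⟩ := Z_lead hd k
  refine ⟨c * k.factorial, mul_pos hc (by exact_mod_cast k.factorial_pos), fun v w hv hw => ?_⟩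
  obtain ⟨W, hW⟩ := h v
  have hs : dt v w = dt w v := by simp [dt, mul_comm]
  rw [hW, map_add, map_smul, LinearMap.add_apply, LinearMap.smul_apply, B_R, lap_Z hd w hw,
    map_zero, B_pow _ _ _ (Z_hom w k), eval_Z v w hv, hs, smul_eq_mul]
  ring

/-! ### The dimension of the harmonic polynomials -/

/-- the harmonic homogeneous polynomials -/
noncomputable def H (d k : ℕ) : Submodule ℝ (MvPolynomial (Fin d) ℝ) :=
  homogeneousSubmodule (Fin d) ℝ k ⊓ LinearMap.ker lap

/-- the coefficients which determine a harmonic polynomial -/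
noncomputable def T (e k : ℕ) : H (e + 2) (k + 1) →ₗ[ℝ]
    ({m // m ∈ finsuppAntidiag (univ : Finset (Fin (e + 1))) (k + 1)} → ℝ) ×
    ({m // m ∈ finsuppAntidiag (univ : Finset (Fin (e + 1))) k} → ℝ) :=
  LinearMap.prod (LinearMap.pi fun m => lcoeff ℝ (Finsupp.cons 0 m.1) ∘ₗ (H (e + 2) (k + 1)).subtype)
    (LinearMap.pi fun m => lcoeff ℝ (Finsupp.cons 1 m.1) ∘ₗ (H (e + 2) (k + 1)).subtype)

theorem T_inj (e k : ℕ) : Function.Injective (T e k) := by
  rw [← LinearMap.ker_eq_bot, LinearMap.ker_eq_bot']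
  rintro ⟨p, hp⟩ hT
  obtain ⟨h1, h2⟩ := Submodule.mem_inf.1 hp
  rw [mem_homogeneousSubmodule] at h1
  rw [LinearMap.mem_ker] at h2
  have hT1 : ∀ m ∈ finsuppAntidiag (univ : Finset (Fin (e + 1))) (k + 1),
      coeff (Finsupp.cons 0 m) p = 0 := fun m hm => congrFun (congrArg Prod.fst hT) ⟨m, hm⟩
  have hT2 : ∀ m ∈ finsuppAntidiag (univ : Finset (Fin (e + 1))) k,
      coeff (Finsupp.cons 1 m) p = 0 := fun m hm => congrFun (congrArg Prod.snd hT) ⟨m, hm⟩
  have key : ∀ n : ℕ, ∀ m : Fin (e + 2) →₀ ℕ, m 0 = n → coeff m p = 0 := by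
    intro n
    induction n using Nat.strong_induction_on with
    | _ n ih =>
      intro m hm
      rcases n with _ | _ | n
      · by_cases hd : m.degree = k + 1
        · rw [← Finsupp.cons_tail m, hm]
          refine hT1 _ ?_
          rw [mem_finsuppAntidiag]
          refine ⟨?_, subset_univ _⟩
          rw [Finsupp.degree_eq_sum, Fin.sum_univ_succ, hm, zero_add] at hd
          exact hd
        · exact h1.coeff_eq_zero hd
      · by_cases hd : m.degree = k + 1
        · rw [← Finsupp.cons_tail m, hm]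
          refine hT2 _ ?_
          rw [mem_finsuppAntidiag]
          refine ⟨?_, subset_univ _⟩
          rw [Finsupp.degree_eq_sum, Fin.sum_univ_succ, hm] at hd
          have : ∑ i : Fin (e + 1), m i.succ = k := by omega
          exact this
        · exact h1.coeff_eq_zero hd
      · -- `m = m' + 2 e_0`
        obtain ⟨m', hm'⟩ : ∃ m' : Fin (e + 2) →₀ ℕ,
            m = m' + Finsupp.single 0 1 + Finsupp.single 0 1 := by
          refine ⟨m - Finsupp.single 0 2, ?_⟩
          ext i
          by_cases hi : i = 0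
          · subst hi; simp [hm]
          · simp [Ne.symm hi]
        have h0 : m' 0 = n := by
          have := congrArg (fun f : Fin (e + 2) →₀ ℕ => f 0) hm'
          simp [hm] at this
          omega
        have h3 := congrArg (coeff m') h2
        rw [lap_apply, coeff_sum, coeff_zero, Fin.sum_univ_succ, sum_eq_zero, add_zero,
          coeff_pderiv, coeff_pderiv, ← hm'] at h3
        · have h4 : ((m' 0 : ℝ) + 1) ≠ 0 := by positivity
          have h5 : (((m' + Finsupp.single 0 1 : Fin (e + 2) →₀ ℕ) 0 : ℕ) : ℝ) + 1 ≠ 0 := by positivity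
          rcases mul_eq_zero.1 h3 with h | h
          · rcases mul_eq_zero.1 h with h | h
            · exact h
            · exact absurd h h5
          · exact absurd h h4
        · intro i _
          rw [coeff_pderiv, coeff_pderiv, ih n (by omega), zero_mul, zero_mul]
          simp [h0]
  refine Subtype.ext ?_
  show p = 0
  ext m
  rw [key _ m rfl, coeff_zero]

instance (e k : ℕ) : FiniteDimensional ℝ (H (e + 2) (k + 1)) :=
  FiniteDimensional.of_injective (T e k) (T_inj e k)

theorem hd_eq (e k : ℕ) : hd (e + 2) (k + 1) =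
    ((e + k).choose k : ℝ) * ((e + 2 + 2 * k) / (k + 1)) := by
  induction k with
  | zero => simp [hd]
  | succ k ih =>
    rw [hd, ih]
    have h1 : ((k : ℝ) + 1) * ((e + (k + 1)).choose (k + 1) : ℝ) =
        (e + k + 1) * ((e + k).choose k : ℝ) := by
      have := Nat.add_one_mul_choose_eq (e + k) k
      have h2 : e + (k + 1) = e + k + 1 := by ring
      rw [h2]
      have h3 : (((e + k + 1) * (e + k).choose k : ℕ) : ℝ) =
        (((e + k + 1).choose (k + 1) * (k + 1) : ℕ) : ℝ) := by exact_mod_cast this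
      push_cast at h3
      linarith
    have h2 : ((e + (k + 1)).choose (k + 1) : ℝ) =
        (e + k + 1) * ((e + k).choose k : ℝ) / (k + 1) := by
      have : ((k : ℝ) + 1) ≠ 0 := by positivity
      field_simp
      linarith
    rw [h2]
    have h3 : (2 * (k : ℝ) + ((e + 2 : ℕ) : ℝ)) ≠ 0 := by positivity
    have h4 : ((k : ℝ) + 1) ≠ 0 := by positivity
    have h5 : ((k : ℝ) + 2) ≠ 0 := by positivity
    have h6 : ((k : ℝ) + 1 + 1) ≠ 0 := by positivity
    push_cast at h3 ⊢
    field_simp
    ring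

theorem finrank_H (e k : ℕ) : (finrank ℝ (H (e + 2) (k + 1)) : ℝ) ≤ hd (e + 2) (k + 1) := by
  have h := LinearMap.finrank_le_finrank_of_injective (T_inj e k)
  rw [finrank_prod, finrank_fintype_fun_eq_card, finrank_fintype_fun_eq_card,
    Fintype.card_coe, Fintype.card_coe, card_finsuppAntidiag_nat_eq_choose,
    card_finsuppAntidiag_nat_eq_choose, card_univ, Fintype.card_fin] at h
  have h1 : e + 1 + (k + 1) - 1 = e + k + 1 := by omega
  have h2 : e + 1 + k - 1 = e + k := by omega
  rw [h1, h2] at h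
  have h3 : (((e + k + 1) * (e + k).choose k : ℕ) : ℝ) =
      (((e + k + 1).choose (k + 1) * (k + 1) : ℕ) : ℝ) := by
    exact_mod_cast Nat.add_one_mul_choose_eq (e + k) k
  push_cast at h3
  have h4 : ((finrank ℝ (H (e + 2) (k + 1)) : ℕ) : ℝ) ≤
      (e + k + 1).choose (k + 1) + (e + k).choose k := by exact_mod_cast h
  refine h4.trans (le_of_eq ?_)
  rw [hd_eq]
  have h5 : ((k : ℝ) + 1) ≠ 0 := by positivity
  field_simp
  linarith

/-- **GEG.** -/
theorem t_geg : S_GEG := by
  intro d hd k
  obtain ⟨e, rfl⟩ : ∃ e, d = e + 2 := ⟨d - 2, by omega⟩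
  rcases k with _ | k
  · refine ⟨Unit, inferInstance, fun _ _ => 1, fun _ _ => 1, ?_, ?_, ?_⟩ <;>
      simp [geg, Pool.Agent.H58.BL.hd]
  obtain ⟨c, hc, hB⟩ := B_Z hd (k + 1)
  obtain ⟨b, hb⟩ := exists_feat (H (e + 2) (k + 1))
  have hmem : ∀ v : Fin (e + 2) → ℝ, dt v v = 1 → Z v (k + 1) ∈ H (e + 2) (k + 1) := fun v hv =>
    Submodule.mem_inf.2 ⟨(mem_homogeneousSubmodule _ _).2 (Z_hom v _), LinearMap.mem_ker.2 (lap_Z hd v hv _)⟩
  have hK : ∀ v w : Fin (e + 2) → ℝ, dt v v = 1 → dt w w = 1 → geg (e + 2) (k + 1) (dt v w) =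
      ∑ i, (1 / √c * B (b i) (Z v (k + 1))) * (1 / √c * B (b i) (Z w (k + 1))) := by
    intro v w hv hw
    have h1 := hb _ (hmem v hv) _ (hmem w hw)
    rw [hB v w hv hw] at h1
    have h2 : ∀ i, (1 / √c * B (b i) (Z v (k + 1))) * (1 / √c * B (b i) (Z w (k + 1))) =
        (1 / c) * (B (b i) (Z v (k + 1)) * B (b i) (Z w (k + 1))) := by
      intro i
      have h3 : √c * √c = c := Real.mul_self_sqrt hc.le
      have h4 : (1 / √c) * (1 / √c) = 1 / c := by rw [← h3]; simp
      rw [← h4]; ring
    rw [sum_congr rfl fun i _ => h2 i, ← mul_sum, ← h1]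
    field_simp
  have hg1 : geg (e + 2) (k + 1) 1 = 1 := by
    have h : ∀ j : ℕ, geg (e + 2) j 1 = 1 := by
      intro j
      induction j using Nat.strong_induction_on with
      | _ j ih =>
        rcases j with _ | _ | j
        · simp [geg]
        · simp [geg]
        · rw [geg, ih (j + 1) (by omega), ih j (by omega)]
          have h0 : ((j : ℝ) + ((e + 2 : ℕ) : ℝ) - 1) ≠ 0 := by
            push_cast
            have h1 : (0 : ℝ) ≤ e := e.cast_nonneg
            have h2 : (0 : ℝ) ≤ j := j.cast_nonneg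
            intro h; linarith
          rw [div_eq_one_iff_eq h0]
          ring
    exact h _
  refine ⟨Fin (finrank ℝ (H (e + 2) (k + 1))), inferInstance,
    fun v i => 1 / √c * B (b i) (Z v (k + 1)), fun i j => if i = j then 1 else 0, hK, ?_, ?_⟩
  · intro v hv
    have h1 := hK v v hv hv
    rw [hv, hg1] at h1
    simp only [ite_mul, one_mul, zero_mul, sum_ite_eq, mem_univ, if_true]
    exact h1.symm
  · simp only [ite_pow, one_pow, ne_eq, OfNat.ofNat_ne_zero, not_false_eq_true, zero_pow,
      sum_ite_eq, mem_univ, if_true, sum_const, card_univ, Fintype.card_fin, nsmul_eq_mul, mul_one]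
    exact finrank_H e k

end Pool.Agent.H630.BL
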